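import Pool.Agent.K1H94.CM.Walk

/-!
# MP_d44d06_co: matchings with the same perimeter edges are joined by a one-legged caterpillar

The `2 n` points in convex position are the elements of `ZMod (2 * n)` in cyclic order. The definitions
`B`, `Cross`, `Plane`, `DisjCompat`, `PlanePM`, `OneLegged` are in `Pool.Agent.K1H94.CM.Basic`.
-/

set_option autoImplicit false

namespace Pool.Agent.Results.MP_d44d06_co.SamePerimeter

open Pool.Agent.K1H94.CM

/-- Two plane perfect matchings which contain the same sides of the polygon, up to at most one side,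
are disjoint compatible with a common plane spanning one-legged caterpillar. -/
theorem result (n : ℕ) (hn : 2 ≤ n) (M M' : SimpleGraph (ZMod (2 * n)))
    (hM : PlanePM M) (hM' : PlanePM M') (c : ZMod (2 * n))
    (h : ∀ a, a ≠ c → (M.Adj a (a + 1) ↔ M'.Adj a (a + 1))) :
    ∃ D, OneLegged D ∧ Plane D ∧ DisjCompat D M ∧ DisjCompat D M' := by
  haveI : NeZero (2 * n) := ⟨by omega⟩
  obtain ⟨D, h1, h2, h3⟩ := walk (by omega) hM hM' c h
  refine ⟨D, h1, ?_, h2, h3⟩
  intro a b p q hab hpq
  exact h2.2 a b p q (Or.inl hab) (Or.inl hpq)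

end Pool.Agent.Results.MP_d44d06_co.SamePerimeter
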